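import Mathlib
import Pool.Agent.Y375.EP.Inf

set_option autoImplicit false

/-!
# E-pattern languages over at least four letters cannot be learnt in any limiting sense

The question asks for computable learners which converge to one correct pattern on every text. Here
the learner is an arbitrary function, its guesses are arbitrary sets of words, which may change for
ever and may be wrong on a finite set of words each (behaviourally correct learning up to finite
sets), the texts are fat (every word occurs infinitely often), and only sublanguages of one fixed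
language, given by patterns which omit two letters, have to be learnt. Even this is impossible.
-/

namespace Pool.Agent.Results.MP_3f2786_lc.NoLimitLearnerUpToFinite

/-- The E-pattern language over the alphabet `Fin k` of a word `α` over the variables `ℕ` and the
terminals `Fin k`: all images of `α` under substitutions (variables may be erased). -/
def ELang (k : ℕ) (α : List (ℕ ⊕ Fin k)) : Set (List (Fin k)) :=
  {w | ∃ σ : ℕ → List (Fin k), w = α.flatMap (Sum.elim σ (fun a => [a]))}

/-- `α` is a pattern (nonempty) in which at least two of the `k` letters do not occur. -/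
def OmitsTwo (k : ℕ) (α : List (ℕ ⊕ Fin k)) : Prop :=
  α ≠ [] ∧ ∃ a b : Fin k, a ≠ b ∧ Sum.inr a ∉ α ∧ Sum.inr b ∉ α

/-- A fat text of `L`: a sequence of words of `L` in which every word of `L` occurs infinitely
often. -/
def FatText {k : ℕ} (t : ℕ → List (Fin k)) (L : Set (List (Fin k))) : Prop :=
  (∀ n, t n ∈ L) ∧ ∀ w ∈ L, {n | t n = w}.Infinite

/-- The learner `M` (an arbitrary function with arbitrary sets of words as guesses) learns `L`
behaviourally correctly up to finite sets from all fat texts: all but finitely many guesses differ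
from `L` in finitely many words only (which may depend on the guess). -/
def LearnsUpToFinite {k : ℕ} (M : List (List (Fin k)) → Set (List (Fin k)))
    (L : Set (List (Fin k))) : Prop :=
  ∀ t : ℕ → List (Fin k), FatText t L →
    ∃ N : ℕ, ∀ n ≥ N, (symmDiff (M ((List.range n).map t)) L).Finite

/-- The learner `M` identifies the language of `α` in the limit from every text `t` of it: its
guesses on the finite initial segments are eventually one fixed word `β` with the same language. -/
def Identifies (k : ℕ) (M : List (List (Fin k)) → List (ℕ ⊕ Fin k)) (α : List (ℕ ⊕ Fin k)) :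
    Prop :=
  ∀ t : ℕ → List (Fin k), Set.range t = ELang k α →
    ∃ β : List (ℕ ⊕ Fin k), ELang k β = ELang k α ∧
      ∃ N : ℕ, ∀ n ≥ N, M ((List.range n).map t) = β

/-- `ePAT` over the alphabet `Fin k` is inferrable from positive data. -/
def Inferrable (k : ℕ) : Prop :=
  ∃ M : List (List (Fin k)) → List (ℕ ⊕ Fin k), Computable M ∧
    ∀ α : List (ℕ ⊕ Fin k), α ≠ [] → Identifies k M α

/-- **Main theorem.** Let `k ≥ 4`. There is a pattern `α` over `k` letters, omitting two letters,
such that

1. every finite set `s` of words of the language of `α` lies in the language of a pattern `β`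
omitting two letters which is a subset of the language of `α` with infinite difference;

2. no function `M` whatsoever, with arbitrary sets of words as guesses, learns all languages
`L(β) ⊆ L(α)`, `β` a pattern omitting two letters, behaviourally correctly up to finite sets from
all fat texts.

In particular (3) the class of all E-pattern languages over `k` letters is not inferrable from
positive data. -/
theorem result (k : ℕ) (hk : 4 ≤ k) :
    (∃ α : List (ℕ ⊕ Fin k), OmitsTwo k α ∧
      (∀ s : Finset (List (Fin k)), (s : Set (List (Fin k))) ⊆ ELang k α →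
        ∃ β : List (ℕ ⊕ Fin k), OmitsTwo k β ∧ (s : Set (List (Fin k))) ⊆ ELang k β ∧
          ELang k β ⊆ ELang k α ∧ (ELang k α \ ELang k β).Infinite) ∧
      ∀ M : List (List (Fin k)) → Set (List (Fin k)),
        ∃ β : List (ℕ ⊕ Fin k), OmitsTwo k β ∧ ELang k β ⊆ ELang k α ∧
          ¬ LearnsUpToFinite M (ELang k β)) ∧
    ¬ Inferrable k := by
  obtain ⟨α, h1, h2, h3, h4⟩ := Pool.Agent.Y375.EP.main k hk
  have h5 : ∀ M : List (List (Fin k)) → Set (List (Fin k)),
      ∃ β : List (ℕ ⊕ Fin k), OmitsTwo k β ∧ ELang k β ⊆ ELang k α ∧
        ¬ LearnsUpToFinite M (ELang k β) := by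
    intro M
    obtain ⟨β, hb1, hb2, hb3, t, ht1, ht2, ht3⟩ := h4 M
    refine ⟨β, ⟨hb1, hb2⟩, hb3, fun hL => ?_⟩
    obtain ⟨N, hN⟩ := hL t ⟨ht1, ht2⟩
    obtain ⟨n, hn, hinf⟩ := ht3 N
    exact hinf (hN n hn)
  refine ⟨⟨α, ⟨h1, h2⟩, ?_, h5⟩, ?_⟩
  · intro s hs
    obtain ⟨β, hb1, hb2, hb3, hb4, hb5⟩ := h3 s hs
    exact ⟨β, ⟨hb1, hb2⟩, hb3, hb4, hb5⟩
  · rintro ⟨M, _, hM⟩
    obtain ⟨β, ⟨hb1, _⟩, _, hb3⟩ := h5 (fun l => ELang k (M l))
    apply hb3
    intro t ht
    have hr : Set.range t = ELang k β := by
      ext w
      constructor
      · rintro ⟨n, rfl⟩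
        exact ht.1 n
      · intro hw
        obtain ⟨n, hn⟩ := (ht.2 w hw).nonempty
        exact ⟨n, hn⟩
    obtain ⟨γ, hγ, N, hN⟩ := hM β hb1 t hr
    refine ⟨N, fun n hn => ?_⟩
    show (symmDiff (ELang k (M ((List.range n).map t))) (ELang k β)).Finite
    rw [hN n hn, hγ, symmDiff_self]
    exact Set.finite_empty

end Pool.Agent.Results.MP_3f2786_lc.NoLimitLearnerUpToFinite
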